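import Pool.Agent.V5helper35.CA.Stm2

/-!
# Project CA, job INN2
-/

set_option autoImplicit false

namespace Pool.Agent.V5helper56.CA

open Pool.Agent.V5helper35.CA NC

variable {n : ℕ}

/-- every word with a letter different from `i` -/
lemma word_decomp (i : Fin n) (u : List (Fin n)) (hu : ∃ l ∈ u, l ≠ i) :
    ∃ (v : List (Fin n)) (l : Fin n) (k : ℕ), l ≠ i ∧ u = v ++ [l] ++ List.replicate k i := by
  induction u using List.reverseRecOn with
  | nil => obtain ⟨l, hl, _⟩ := hu; simp at hl
  | append_singleton w l ih =>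
    by_cases hl : l = i
    · subst hl
      obtain ⟨l', hl', hne⟩ := hu
      rw [List.mem_append, List.mem_singleton] at hl'
      have h1 : l' ∈ w := hl'.resolve_right hne
      obtain ⟨v, l'', k, h2, h3⟩ := ih ⟨l', h1, hne⟩
      refine ⟨v, l'', k + 1, h2, ?_⟩
      rw [h3, List.replicate_succ', ← List.append_assoc]
    · exact ⟨w, l, 0, hl, by simp⟩

/-- a series which commutes with `1 + X i` -/
lemma comm_zero {c : ℕ} {i : Fin n} {f : NC ℤ n}
    (h : Eqd c (mag ℤ (FreeGroup.of i) * f) (f * mag ℤ (FreeGroup.of i))) (u : List (Fin n))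
    (hu : ∃ l ∈ u, l ≠ i) (hc : u.length + 1 ≤ c) : f u = 0 := by
  have h1 : ∀ w : List (Fin n), w.length ≤ c → (X i * f : NC ℤ n) w = (f * X i : NC ℤ n) w := by
    intro w hw
    have h2 := h w hw
    rw [mag_of, add_mul, one_mul, mul_add, mul_one, NC.add_apply, NC.add_apply] at h2
    linarith
  have key : ∀ (k : ℕ) (v : List (Fin n)) (l : Fin n), l ≠ i → v.length + 1 + k + 1 ≤ c →
      f (v ++ [l] ++ List.replicate k i) = 0 := by
    intro k
    induction k with
    | zero =>
      intro v l hl hlen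
      have h3 := h1 (i :: (v ++ [l])) (by simp; omega)
      rw [X_mul_cons, if_pos rfl, ← List.cons_append, mul_X_append, if_neg hl] at h3
      simpa using h3
    | succ k ih =>
      intro v l hl hlen
      have h3 := h1 (i :: ((v ++ [l] ++ List.replicate k i) ++ [i])) (by simp; omega)
      rw [X_mul_cons, if_pos rfl, ← List.cons_append, mul_X_append, if_pos rfl] at h3
      rw [List.replicate_succ', ← List.append_assoc, h3]
      have h4 := ih (i :: v) l hl (by simp; omega)
      simpa using h4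
  obtain ⟨v, l, k, hl, rfl⟩ := word_decomp i u hu
  exact key k v l hl (by simp at hc; omega)

/-- a product with a factor which vanishes on the nonempty suffixes -/
lemma mul_suffix (v : List (Fin n)) (f g : NC ℤ n)
    (h : ∀ v₁ v₂ : List (Fin n), v = v₁ ++ v₂ → v₂ ≠ [] → g v₂ = 0) :
    (f * g) v = f v * g [] := by
  induction v generalizing f with
  | nil => rfl
  | cons i v ih =>
    rw [mul_cons, h [] (i :: v) rfl (by simp), mul_zero, zero_add,
      ih (der i f) (fun v₁ v₂ e hv => h (i :: v₁) v₂ (by rw [e]; rfl) hv), der_apply]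

/-- normal form of a list of syllables -/
def Good (i0 : Fin n) (s : List (Fin n × ℤ)) : Prop :=
  (∀ p ∈ s, p.2 ≠ 0) ∧ (s.map Prod.fst).IsChain (· ≠ ·) ∧ ∀ p, s.getLast? = some p → p.1 ≠ i0

lemma syl_cons (i : Fin n) (e : ℤ) (s : List (Fin n × ℤ)) :
    syl ((i, e) :: s) = FreeGroup.of i ^ e * syl s := by
  simp [syl]

lemma syl_nil : syl ([] : List (Fin n × ℤ)) = 1 := rfl

lemma nf_cons (i0 i : Fin n) (e : ℤ) (s : List (Fin n × ℤ)) (a : ℤ) (hs : Good i0 s) :
    ∃ (s' : List (Fin n × ℤ)) (a' : ℤ), Good i0 s' ∧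
      FreeGroup.of i ^ e * (syl s * FreeGroup.of i0 ^ a) = syl s' * FreeGroup.of i0 ^ a' := by
  by_cases he : e = 0
  · exact ⟨s, a, hs, by rw [he, zpow_zero, one_mul]⟩
  rcases s with _ | ⟨⟨j, e'⟩, s2⟩
  · by_cases hi : i = i0
    · subst hi
      refine ⟨[], e + a, hs, ?_⟩
      rw [syl_nil, one_mul, one_mul, zpow_add]
    · refine ⟨[(i, e)], a, ⟨?_, ?_, ?_⟩, ?_⟩
      · intro p hp; rw [List.mem_singleton] at hp; rw [hp]; exact he
      · simp
      · intro p hp
        simp at hp
        rw [← hp]; exact hi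
      · rw [syl_cons, syl_nil, mul_one, one_mul]
  · by_cases hj : j = i
    · subst hj
      have hcomb : FreeGroup.of j ^ e * (syl ((j, e') :: s2) * FreeGroup.of i0 ^ a) =
          FreeGroup.of j ^ (e + e') * syl s2 * FreeGroup.of i0 ^ a := by
        rw [syl_cons, zpow_add]; group
      rw [hcomb]
      by_cases hz : e + e' = 0
      · refine ⟨s2, a, ⟨fun p hp => hs.1 p (List.mem_cons_of_mem _ hp), ?_, ?_⟩, ?_⟩
        · have := hs.2.1
          rw [List.map_cons] at this
          exact this.tail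
        · intro p hp
          refine hs.2.2 p ?_
          rcases s2 with _ | ⟨q, s3⟩
          · simp at hp
          · rw [List.getLast?_cons_cons]; exact hp
        · rw [hz, zpow_zero, one_mul]
      · refine ⟨(j, e + e') :: s2, a, ⟨?_, ?_, ?_⟩, ?_⟩
        · intro p hp
          rcases List.mem_cons.1 hp with rfl | hp
          · exact hz
          · exact hs.1 p (List.mem_cons_of_mem _ hp)
        · exact hs.2.1
        · intro p hp
          rcases s2 with _ | ⟨q, s3⟩
          · simp at hp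
            have := hs.2.2 (j, e') (by simp)
            rw [← hp]; exact this
          · rw [List.getLast?_cons_cons] at hp
            exact hs.2.2 p (by rw [List.getLast?_cons_cons]; exact hp)
        · rw [syl_cons]
    · refine ⟨(i, e) :: (j, e') :: s2, a, ⟨?_, ?_, ?_⟩, ?_⟩
      · intro p hp
        rcases List.mem_cons.1 hp with rfl | hp
        · exact he
        · exact hs.1 p hp
      · have := hs.2.1
        rw [List.map_cons] at this ⊢
        rw [List.map_cons]
        exact List.IsChain.cons_cons (fun h => hj h.symm) this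
      · intro p hp
        rw [List.getLast?_cons_cons] at hp
        exact hs.2.2 p hp
      · rw [syl_cons i e]; group

lemma nf (i0 : Fin n) (g : FreeGroup (Fin n)) :
    ∃ (s : List (Fin n × ℤ)) (a : ℤ), Good i0 s ∧ g = syl s * FreeGroup.of i0 ^ a := by
  have key : ∀ g : FreeGroup (Fin n), ∀ (s : List (Fin n × ℤ)) (a : ℤ), Good i0 s →
      ∃ (s' : List (Fin n × ℤ)) (a' : ℤ), Good i0 s' ∧
        g * (syl s * FreeGroup.of i0 ^ a) = syl s' * FreeGroup.of i0 ^ a' := by
    intro g
    induction g using FreeGroup.induction_on with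
    | C1 => intro s a hs; exact ⟨s, a, hs, one_mul _⟩
    | of i =>
      intro s a hs
      have := nf_cons i0 i 1 s a hs
      rwa [zpow_one] at this
    | inv_of i _ =>
      intro s a hs
      have := nf_cons i0 i (-1) s a hs
      rwa [zpow_neg_one] at this
    | mul u v hu hv =>
      intro s a hs
      obtain ⟨s1, a1, h1, e1⟩ := hv s a hs
      obtain ⟨s2, a2, h2, e2⟩ := hu s1 a1 h1
      exact ⟨s2, a2, h2, by rw [mul_assoc, e1, e2]⟩
  obtain ⟨s, a, hs, e⟩ := key g [] 0 ⟨by simp, by simp, by simp⟩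
  refine ⟨s, a, hs, ?_⟩
  rw [← e, syl_nil, zpow_zero, mul_one, mul_one]

theorem main (hP : S_PAT) (hA : S_INNA) (i0 : Fin n) (β : MulAut (FreeGroup (Fin n)))
    (hβ : ∀ c, β ∈ J n c) (h0 : β (FreeGroup.of i0) = FreeGroup.of i0) :
    ∃ a : ℤ, β = MulAut.conj (FreeGroup.of i0 ^ a) := by
  classical
  have hk : ∀ j, ∃ g, β (FreeGroup.of j) = g * FreeGroup.of j * g⁻¹ := fun j => by
    refine hA n j _ fun c => ?_
    obtain ⟨h, h1, h2⟩ := hβ c
    exact ⟨h, h1, h2 _⟩
  choose k hk using hk
  choose s b hs hkb using fun j => nf i0 (k j)⁻¹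
  obtain ⟨h, hh1, hh2⟩ := hβ (∑ j, (s j).length + 3)
  set c := ∑ j, (s j).length + 3 with hc
  have hcj : ∀ j, (s j).length + 3 ≤ c := fun j => by
    have : (s j).length ≤ ∑ j, (s j).length :=
      Finset.single_le_sum (f := fun j => (s j).length) (fun _ _ => Nat.zero_le _) (Finset.mem_univ j)
    omega
  have hcomm0 : Eqd c (mag ℤ (FreeGroup.of i0) * h) (h * mag ℤ (FreeGroup.of i0)) := by
    have := hh2 (FreeGroup.of i0)
    rwa [h0] at this
  have hpow : ∀ (i : Fin n) (e : ℤ) (l : Fin n), mag ℤ (FreeGroup.of i ^ e) [l] =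
      if l = i then e else 0 := by
    intro i e l
    have := hP n [(i, e)] [l] (by simp) (by simp)
    rw [syl_cons, syl_nil, mul_one] at this
    rw [this]
    simp
  have hmain : ∀ j, j ≠ i0 → β (FreeGroup.of j) =
      FreeGroup.of i0 ^ (h [i0]) * FreeGroup.of j * (FreeGroup.of i0 ^ (h [i0]))⁻¹ := by
    intro j hj
    -- `κ`
    have hκ : Eqd c (mag ℤ (FreeGroup.of j) * (mag ℤ (k j)⁻¹ * h))
        ((mag ℤ (k j)⁻¹ * h) * mag ℤ (FreeGroup.of j)) := by
      have h1 := Eqd.mul (Eqd.refl c (mag ℤ (k j)⁻¹)) (hh2 (FreeGroup.of j))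
      have e1 : mag ℤ (k j)⁻¹ * (mag ℤ (β (FreeGroup.of j)) * h) =
          mag ℤ (FreeGroup.of j) * (mag ℤ (k j)⁻¹ * h) := by
        rw [hk j, ← mul_assoc, ← map_mul, ← mul_assoc (mag ℤ (FreeGroup.of j)), ← map_mul]
        congr 2
        group
      rw [e1, ← mul_assoc (mag ℤ (k j)⁻¹) h] at h1
      exact h1
    have hh' : Eqd c (mag ℤ (FreeGroup.of i0) * (mag ℤ (FreeGroup.of i0 ^ b j) * h))
        ((mag ℤ (FreeGroup.of i0 ^ b j) * h) * mag ℤ (FreeGroup.of i0)) := by
      have h1 := Eqd.mul (Eqd.refl c (mag ℤ (FreeGroup.of i0 ^ b j))) hcomm0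
      have e1 : mag ℤ (FreeGroup.of i0 ^ b j) * (mag ℤ (FreeGroup.of i0) * h) =
          mag ℤ (FreeGroup.of i0) * (mag ℤ (FreeGroup.of i0 ^ b j) * h) := by
        rw [← mul_assoc, ← map_mul, ← mul_assoc, ← map_mul, ← zpow_add_one, ← zpow_one_add, add_comm]
      rw [e1, ← mul_assoc _ h] at h1
      exact h1
    set v := (s j).map Prod.fst with hv
    have hvl : v.length = (s j).length := by rw [hv, List.length_map]
    have hcj' := hcj j
    have hval : (mag ℤ (k j)⁻¹ * h) v = ((s j).map Prod.snd).prod := by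
      rw [hkb j, map_mul, mul_assoc, mul_suffix v]
      · rw [mul_nil, mag_nil, hh1, mul_one, mul_one, hP n (s j) v (by rw [hvl]) (hs j).2.1, if_pos rfl]
      · intro v₁ v₂ e hne
        obtain ⟨w, l, rfl⟩ : ∃ w l, v₂ = w ++ [l] := by
          rcases List.eq_nil_or_concat v₂ with h | ⟨w, l, h⟩
          · exact absurd h hne
          · exact ⟨w, l, by rw [h, List.concat_eq_append]⟩
        have hlen : (w ++ [l]).length ≤ v.length := by rw [e]; simp
        refine comm_zero hh' _ ⟨l, by simp, ?_⟩ (by omega)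
        -- the last letter of `v` is not `i0`
        have h3 : (s j).getLast?.map Prod.fst = some l := by
          rw [← List.getLast?_map, ← hv, e]
          simp
        obtain ⟨q, hq, hql⟩ := Option.map_eq_some_iff.1 h3
        rw [← hql]
        exact (hs j).2.2 q hq
    have hne : ((s j).map Prod.snd).prod ≠ 0 := by
      rw [Ne, List.prod_eq_zero_iff, List.mem_map]
      rintro ⟨q, hq, hq0⟩
      exact (hs j).1 q hq hq0
    have hall : ∀ l ∈ v, l = j := by
      intro l hl
      by_contra hlj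
      exact hne (by rw [← hval]; exact comm_zero hκ v ⟨l, hl, hlj⟩ (by omega))
    have hform : ∃ e : ℤ, syl (s j) = FreeGroup.of j ^ e := by
      have hchain := (hs j).2.1
      rw [← hv] at hchain
      rcases hsj : s j with _ | ⟨⟨l1, e1⟩, _ | ⟨⟨l2, e2⟩, s3⟩⟩
      · exact ⟨0, by rw [syl_nil, zpow_zero]⟩
      · refine ⟨e1, ?_⟩
        have : l1 = j := hall l1 (by rw [hv, hsj]; simp)
        rw [syl_cons, syl_nil, mul_one, this]
      · exfalso
        have a1 : l1 = j := hall l1 (by rw [hv, hsj]; simp)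
        have a2 : l2 = j := hall l2 (by rw [hv, hsj]; simp)
        rw [hv, hsj, List.map_cons, List.map_cons] at hchain
        have := List.isChain_cons_cons.1 hchain
        exact this.1 (by simp only [a1, a2])
    obtain ⟨e, he⟩ := hform
    have hb : b j = -h [i0] := by
      have h1 : (mag ℤ (k j)⁻¹ * h) [i0] = 0 := comm_zero hκ [i0] ⟨i0, by simp, fun h => hj h.symm⟩
        (by simp; omega)
      rw [mul_single, mag_nil, one_mul, hh1, mul_one, hkb j, he, mag_mul_single, hpow, hpow,
        if_neg (fun h => hj h.symm), if_pos rfl, zero_add] at h1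
      linarith
    have hkj : k j = (FreeGroup.of i0 ^ (h [i0])) * (FreeGroup.of j ^ e)⁻¹ := by
      have h1 := hkb j
      rw [he, hb] at h1
      rw [← inv_inv (k j), h1, mul_inv_rev, zpow_neg, inv_inv]
    rw [hk j, hkj]
    rw [mul_inv_rev, inv_inv, mul_assoc, mul_assoc, mul_assoc]
    congr 1
    have h5 : (FreeGroup.of j ^ e)⁻¹ * (FreeGroup.of j * (FreeGroup.of j ^ e * (FreeGroup.of i0 ^ h [i0])⁻¹)) =
        FreeGroup.of j * (FreeGroup.of i0 ^ h [i0])⁻¹ := by
      have h6 : FreeGroup.of j * FreeGroup.of j ^ e = FreeGroup.of j ^ e * FreeGroup.of j := by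
        rw [← zpow_add_one, ← zpow_one_add, add_comm]
      rw [← mul_assoc (FreeGroup.of j), h6, mul_assoc, inv_mul_cancel_left]
    rw [h5]
  refine ⟨h [i0], ?_⟩
  have hhom : (β : FreeGroup (Fin n) ≃* FreeGroup (Fin n)).toMonoidHom =
      (MulAut.conj (FreeGroup.of i0 ^ (h [i0])) : FreeGroup (Fin n) ≃* FreeGroup (Fin n)).toMonoidHom := by
    refine FreeGroup.ext_hom _ _ fun j => ?_
    show β (FreeGroup.of j) = MulAut.conj (FreeGroup.of i0 ^ (h [i0])) (FreeGroup.of j)
    rw [MulAut.conj_apply]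
    by_cases hj : j = i0
    · subst hj
      rw [h0, (Commute.zpow_left (Commute.refl (FreeGroup.of j)) (h [j])).eq, mul_inv_cancel_right]
    · exact hmain j hj
  exact MulEquiv.ext fun x => DFunLike.congr_fun hhom x

theorem t_INN2 : S_INN2 := by
  intro hP hA n hn α hα
  let i0 : Fin n := ⟨0, by omega⟩
  obtain ⟨g, hg⟩ : ∃ g, α (FreeGroup.of i0) = g * FreeGroup.of i0 * g⁻¹ := by
    refine hA n i0 _ fun c => ?_
    obtain ⟨h, h1, h2⟩ := hα c
    exact ⟨h, h1, h2 _⟩
  obtain ⟨a, ha⟩ := main hP hA i0 ((MulAut.conj g)⁻¹ * α)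
    (fun c => (J n c).mul_mem ((J n c).inv_mem (conj_mem_J n c g)) (hα c)) (by
      rw [MulAut.mul_apply, hg, ← map_inv, MulAut.conj_apply]; group)
  refine ⟨g * FreeGroup.of i0 ^ a, ?_⟩
  rw [map_mul, ← ha, mul_inv_cancel_left]

end Pool.Agent.V5helper56.CA
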